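import Pool.Agent.Helper6.NX.GoalsA

/-! Project NX, packet L4: submodularity of the entropy. -/

namespace Pool.Agent.Helper61.NX

open Pool.Agent.Helper6.NX

theorem lawL4_def {Ω α : Type} [Fintype Ω] [DecidableEq α] (P : Ω → ℝ) (X : Ω → α) (a : α) :
    law P X a = ∑ ω, if X ω = a then P ω else 0 := by
  unfold law
  refine Finset.sum_congr rfl fun ω _ => ?_
  by_cases h : X ω = a
  · rw [if_pos h, if_pos h]
  · rw [if_neg h, if_neg h]

theorem lawL4_nonneg {Ω α : Type} [Fintype Ω] (P : Ω → ℝ) (hP : IsLaw P) (X : Ω → α) (a : α) :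
    0 ≤ law P X a := by
  classical
  rw [lawL4_def]
  refine Finset.sum_nonneg fun ω _ => ?_
  by_cases h : X ω = a
  · rw [if_pos h]; exact hP.1 ω
  · rw [if_neg h]

theorem lawL4_le {Ω α : Type} [Fintype Ω] (P : Ω → ℝ) (hP : IsLaw P) (X : Ω → α) (ω : Ω) :
    P ω ≤ law P X (X ω) := by
  classical
  rw [lawL4_def]
  have h := Finset.single_le_sum (s := Finset.univ)
    (f := fun ω' => if X ω' = X ω then P ω' else 0) (fun ω' _ => by
      by_cases h : X ω' = X ω
      · simp only [if_pos h]; exact hP.1 ω'
      · simp only [if_neg h]; exact le_rfl) (Finset.mem_univ ω)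
  simpa using h

theorem thmL4 (hl3 : S_L3) : S_L4 := by
  intro Ω α β γ _ P X Y Z hP
  classical
  have main : cent P X (fun ω => (Y ω, Z ω)) ≤ cent P X Z := by
    have h := hl3 Ω α (β × γ) P X (fun ω => (Y ω, Z ω))
      (fun bc a => law P (fun ω => (X ω, Z ω)) (a, bc.2) / law P Z bc.2) hP ?_ ?_ ?_
    · refine h.trans (le_of_eq ?_)
      unfold cent ent
      rw [neg_sub_neg, ← Finset.sum_sub_distrib, ← Finset.sum_neg_distrib]
      refine Finset.sum_congr rfl fun ω _ => ?_
      rcases (hP.1 ω).eq_or_lt with h0 | h0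
      · rw [← h0]
        simp
      · have h1 : 0 < law P (fun ω => (X ω, Z ω)) (X ω, Z ω) :=
          lt_of_lt_of_le h0 (lawL4_le P hP (fun ω => (X ω, Z ω)) ω)
        have h2 : 0 < law P Z (Z ω) := lt_of_lt_of_le h0 (lawL4_le P hP Z ω)
        simp only
        rw [Real.log_div h1.ne' h2.ne']
        ring
    · intro bc a
      exact div_nonneg (lawL4_nonneg P hP _ _) (lawL4_nonneg P hP _ _)
    · intro bc s
      rw [← Finset.sum_div]
      refine div_le_one_of_le₀ ?_ (lawL4_nonneg P hP _ _)
      have e1 : ∀ a ∈ s, law P (fun ω => (X ω, Z ω)) (a, bc.2) =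
          ∑ ω, if (X ω, Z ω) = (a, bc.2) then P ω else 0 := fun a _ => lawL4_def _ _ _
      rw [Finset.sum_congr rfl e1, Finset.sum_comm, lawL4_def]
      refine Finset.sum_le_sum fun ω _ => ?_
      by_cases hz : Z ω = bc.2
      · rw [if_pos hz]
        by_cases hx : X ω ∈ s
        · rw [Finset.sum_eq_single (X ω)]
          · rw [if_pos (by rw [hz])]
          · intro a _ ha
            rw [if_neg]
            intro h
            exact ha (Prod.ext_iff.1 h).1.symm
          · intro h'
            exact absurd hx h'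
        · rw [Finset.sum_eq_zero]
          · exact hP.1 ω
          · intro a ha
            rw [if_neg]
            intro h
            have : X ω = a := (Prod.ext_iff.1 h).1
            exact hx (this ▸ ha)
      · rw [if_neg hz, Finset.sum_eq_zero]
        intro a _
        rw [if_neg]
        intro h
        exact hz (Prod.ext_iff.1 h).2
    · intro ω h0
      exact div_pos (lt_of_lt_of_le h0 (lawL4_le P hP (fun ω => (X ω, Z ω)) ω))
        (lt_of_lt_of_le h0 (lawL4_le P hP Z ω))
  refine ⟨main, ?_⟩
  unfold cent at main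
  linarith

end Pool.Agent.Helper61.NX
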