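import Pool.Agent.Helper6.NX.GoalsA

/-! Project NX, packet L5: transport of laws and entropies. -/

namespace Pool.Agent.Helper61.NX

open Pool.Agent.Helper6.NX

theorem law_def {Ω α : Type} [Fintype Ω] [DecidableEq α] (P : Ω → ℝ) (X : Ω → α) (a : α) :
    law P X a = ∑ ω, if X ω = a then P ω else 0 := by
  unfold law
  refine Finset.sum_congr rfl fun ω _ => ?_
  by_cases h : X ω = a
  · rw [if_pos h, if_pos h]
  · rw [if_neg h, if_neg h]

/-- Transport of sums. -/
theorem law_sum {Ω Ω' : Type} [Fintype Ω] [Fintype Ω'] (P : Ω → ℝ) (f : Ω → Ω') (φ : Ω' → ℝ) :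
    ∑ ω', law P f ω' * φ ω' = ∑ ω, P ω * φ (f ω) := by
  classical
  have h1 : ∀ ω', law P f ω' * φ ω' = ∑ ω, (if f ω = ω' then P ω * φ (f ω) else 0) := by
    intro ω'
    rw [law_def, Finset.sum_mul]
    refine Finset.sum_congr rfl fun ω _ => ?_
    by_cases h : f ω = ω'
    · rw [if_pos h, if_pos h, h]
    · rw [if_neg h, if_neg h, zero_mul]
  rw [Finset.sum_congr rfl fun ω' _ => h1 ω', Finset.sum_comm]
  refine Finset.sum_congr rfl fun ω _ => ?_
  rw [Finset.sum_ite_eq]
  simp

theorem thmL5 : S_L5 := by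
  intro Ω Ω' α _ _ P f X hP
  classical
  have h4 : ∀ φ : Ω' → ℝ, ∑ ω', law P f ω' * φ ω' = ∑ ω, P ω * φ (f ω) := law_sum P f
  have h2 : ∀ a, law (law P f) X a = law P (fun ω => X (f ω)) a := by
    intro a
    have e1 : law (law P f) X a = ∑ ω', law P f ω' * (if X ω' = a then (1 : ℝ) else 0) := by
      rw [law_def]
      refine Finset.sum_congr rfl fun ω' _ => ?_
      by_cases h : X ω' = a
      · rw [if_pos h, if_pos h, mul_one]
      · rw [if_neg h, if_neg h, mul_zero]
    rw [e1, h4, law_def]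
    refine Finset.sum_congr rfl fun ω _ => ?_
    by_cases h : X (f ω) = a
    · rw [if_pos h, if_pos h, mul_one]
    · rw [if_neg h, if_neg h, mul_zero]
  refine ⟨⟨?_, ?_⟩, h2, ?_, h4⟩
  · intro ω'
    rw [law_def]
    refine Finset.sum_nonneg fun ω _ => ?_
    by_cases h : f ω = ω'
    · rw [if_pos h]; exact hP.1 ω
    · rw [if_neg h]
  · have := h4 (fun _ => 1)
    simp only [mul_one] at this
    rw [this, hP.2]
  · unfold ent
    rw [h4 (fun ω' => Real.log (law (law P f) X (X ω')))]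
    congr 1
    refine Finset.sum_congr rfl fun ω _ => ?_
    rw [h2]

end Pool.Agent.Helper61.NX
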